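import Pool.Agent.TH612.GS.Stm3
import Pool.Agent.TH753.GS.GL2

/-! GF-GL3: mean square over `β` of `GM` to the left (adapted from `TH753/GS/GL2.lean`). -/

set_option autoImplicit false

namespace Pool.Agent.TH740.GF

open Complex MeasureTheory Set
open Pool.Agent.TH612.GS
open Pool.Agent.TH753.GS (cc cc_sq zN_pow prod_le_sum_pow)

noncomputable section

variable {k : ℕ}

theorem conj_pow (n : ℕ) (u : ℝ) :
    (starRingEnd ℂ) ((n : ℂ) ^ (I * (u : ℂ))) = (n : ℂ) ^ (-(I * (u : ℂ))) := by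
  have h : ((n : ℂ)).arg ≠ Real.pi := by
    rw [Complex.natCast_arg]
    exact Real.pi_pos.ne
  have h2 := Complex.cpow_conj (n : ℂ) (I * (u : ℂ)) h
  rw [Complex.conj_natCast] at h2
  rw [← h2]
  congr 1
  simp

theorem zN_conj (m M : ℕ) (v a b : ℝ) :
    ‖zN M (1 + (-(1 / 4) + I * v) + I * (a - b)) ^ m‖ =
      ‖∑ P ∈ Finset.Icc 1 (M ^ m),
        (starRingEnd ℂ) (cc m M v P * (P : ℂ) ^ (-(I * (a : ℂ)))) *
          (P : ℂ) ^ (-(I * (b : ℂ)))‖ := by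
  rw [← RCLike.norm_conj (zN M (1 + (-(1 / 4) + I * v) + I * (a - b)) ^ m)]
  congr 1
  unfold zN
  rw [zN_pow, map_sum]
  refine Finset.sum_congr rfl fun P hP => ?_
  have hP0 : (P : ℂ) ≠ 0 := by
    have := (Finset.mem_Icc.1 hP).1
    exact_mod_cast (by omega : P ≠ 0)
  rw [← conj_pow P b, ← map_mul]
  congr 1
  rw [cc, mul_assoc, mul_assoc, ← cpow_add _ _ hP0, ← cpow_add _ _ hP0]
  congr 2
  ring

theorem cont_pow {n : ℕ} (hn : 1 ≤ n) : Continuous fun t : ℝ => (n : ℂ) ^ (-(I * (t : ℂ))) := by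
  refine Continuous.const_cpow (by fun_prop) (Or.inl ?_)
  exact_mod_cast (by omega : n ≠ 0)

theorem cont_zN (m M : ℕ) (v a : ℝ) : Continuous fun b : ℝ =>
    ‖zN M (1 + (-(1 / 4) + I * v) + I * ((a : ℂ) - (b : ℂ))) ^ m‖ ^ 2 := by
  simp only [zN_conj]
  refine (continuous_norm.comp (continuous_finsetSum _ fun n hn => ?_)).pow 2
  exact continuous_const.mul (cont_pow (Finset.mem_Icc.1 hn).1)

theorem one_int {C C0 : ℝ} {m : ℕ} (hC : 0 < C)
    (h : ∀ (T : ℝ) (X : ℕ) (a : ℕ → ℂ), 1 ≤ T → (X : ℝ) ≤ T ^ 2 →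
      ∫ u in (0:ℝ)..(2 * T), ‖∑ n ∈ Finset.Icc 1 X, a n * (n : ℂ) ^ (-(I * u))‖ ^ 2 ≤
        C * ∑ n ∈ Finset.Icc 1 X, (T + n) * ‖a n‖ ^ 2)
    (hC0 : ∀ (M N : ℕ) (v : ℝ), ∑ P ∈ Finset.Icc 1 N, ‖cc m M v P‖ ^ 2 ≤ C0)
    (T : ℝ) (M : ℕ) (v a : ℝ) (hT : 1 ≤ T) (hM : (M : ℝ) ^ m ≤ T) :
    ∫ b in (0:ℝ)..T, ‖zN M (1 + (-(1 / 4) + I * v) + I * ((a : ℂ) - (b : ℂ))) ^ m‖ ^ 2 ≤
      2 * C * C0 * T := by
  have h1 : ∫ b in (0:ℝ)..T, ‖zN M (1 + (-(1 / 4) + I * v) + I * ((a : ℂ) - (b : ℂ))) ^ m‖ ^ 2 ≤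
      ∫ b in (0:ℝ)..(2 * T),
        ‖zN M (1 + (-(1 / 4) + I * v) + I * ((a : ℂ) - (b : ℂ))) ^ m‖ ^ 2 := by
    refine intervalIntegral.integral_mono_interval le_rfl (by linarith) (by linarith) ?_
      ((cont_zN m M v a).intervalIntegrable _ _)
    exact Filter.Eventually.of_forall fun b => by positivity
  refine h1.trans ?_
  simp only [zN_conj]
  have hMN : ((M ^ m : ℕ) : ℝ) ≤ T := by
    push_cast
    exact hM
  refine (h T (M ^ m) (fun P => (starRingEnd ℂ) (cc m M v P * (P : ℂ) ^ (-(I * (a : ℂ))))) hT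
    (hMN.trans (by nlinarith))).trans ?_
  have h2 : ∑ P ∈ Finset.Icc 1 (M ^ m), (T + P) *
      ‖(starRingEnd ℂ) (cc m M v P * (P : ℂ) ^ (-(I * (a : ℂ))))‖ ^ 2 ≤
      2 * T * ∑ P ∈ Finset.Icc 1 (M ^ m), ‖cc m M v P‖ ^ 2 := by
    rw [Finset.mul_sum]
    refine Finset.sum_le_sum fun P hP => ?_
    rw [Finset.mem_Icc] at hP
    have h3 : ‖(starRingEnd ℂ) (cc m M v P * (P : ℂ) ^ (-(I * (a : ℂ))))‖ = ‖cc m M v P‖ := by
      rw [RCLike.norm_conj, norm_mul, norm_natCast_cpow_of_pos (by omega)]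
      simp
    rw [h3]
    refine mul_le_mul_of_nonneg_right ?_ (by positivity)
    have h4 : (P : ℝ) ≤ T := le_trans (by exact_mod_cast hP.2) hMN
    linarith
  calc C * ∑ P ∈ Finset.Icc 1 (M ^ m), (T + P) *
      ‖(starRingEnd ℂ) (cc m M v P * (P : ℂ) ^ (-(I * (a : ℂ))))‖ ^ 2
      ≤ C * (2 * T * ∑ P ∈ Finset.Icc 1 (M ^ m), ‖cc m M v P‖ ^ 2) :=
        mul_le_mul_of_nonneg_left h2 hC.le
    _ ≤ C * (2 * T * C0) :=
        mul_le_mul_of_nonneg_left (mul_le_mul_of_nonneg_left (hC0 M _ v) (by linarith)) hC.le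
    _ = 2 * C * C0 * T := by ring

theorem mP_eval {T : ℝ} (l : Fin k) {g : ℝ → ENNReal} (hg : Measurable g) :
    ∫⁻ β, g (β l) ∂(mP (Fin k) T) = ENNReal.ofReal T ^ (k - 1) * ∫⁻ x in Icc 0 T, g x := by
  unfold mP
  have h := Measure.pi_map_eval (μ := fun _ : Fin k => (volume : Measure ℝ).restrict (Icc 0 T)) l
  have h2 : ∫⁻ β, g (β l) ∂(Measure.pi fun _ : Fin k => (volume : Measure ℝ).restrict (Icc 0 T)) =
      ∫⁻ x, g x ∂((Measure.pi fun _ : Fin k =>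
        (volume : Measure ℝ).restrict (Icc 0 T)).map (Function.eval l)) :=
    (lintegral_map hg (measurable_pi_apply l)).symm
  rw [h2, h, lintegral_smul_measure, Finset.prod_const, Finset.card_erase_of_mem (Finset.mem_univ _),
    Finset.card_univ, Fintype.card_fin, Measure.restrict_apply_univ, Real.volume_Icc, sub_zero,
    smul_eq_mul]

theorem one_lint {B T : ℝ} {m M : ℕ} {v a : ℝ} (hT : 0 ≤ T) (l : Fin k)
    (h : ∫ b in (0:ℝ)..T, ‖zN M (1 + (-(1 / 4) + I * v) + I * ((a : ℂ) - (b : ℂ))) ^ m‖ ^ 2 ≤ B) :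
    ∫⁻ β : Fin k → ℝ, ENNReal.ofReal (‖zN M (1 + (-(1 / 4) + I * v) +
        I * ((a : ℂ) - (β l : ℂ))) ^ m‖ ^ 2) ∂(mP (Fin k) T) ≤
      ENNReal.ofReal T ^ (k - 1) * ENNReal.ofReal B := by
  have hc := cont_zN m M v a
  rw [mP_eval (T := T) l (g := fun b : ℝ => ENNReal.ofReal (‖zN M (1 + (-(1 / 4) + I * v) +
        I * ((a : ℂ) - (b : ℂ))) ^ m‖ ^ 2)) hc.measurable.ennreal_ofReal]
  refine mul_le_mul_right ?_ _
  rw [← ofReal_integral_eq_lintegral_ofReal (hc.continuousOn.integrableOn_compact isCompact_Icc)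
    (Filter.Eventually.of_forall fun b => by positivity), integral_Icc_eq_integral_Ioc,
    ← intervalIntegral.integral_of_le hT]
  exact ENNReal.ofReal_le_ofReal h

theorem gm_le (hk : 0 < k) (M : ℕ) (v : ℝ) (γ : Fin k ⊕ Fin k → ℝ) :
    ENNReal.ofReal (‖GM M γ (-(1 / 4) + I * v)‖ ^ 2) ≤
      ENNReal.ofReal (Pool.Agent.TH612.CF.BF k (1 / 8) ^ 2) * ∑ p : Fin k × Fin k,
        ENNReal.ofReal (‖zN M (1 + (-(1 / 4) + I * v) +
        I * (γ (Sum.inl p.1) - γ (Sum.inr p.2))) ^ (k ^ 2)‖ ^ 2) := by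
  have hne : Nonempty (Fin k × Fin k) := ⟨⟨0, hk⟩, ⟨0, hk⟩⟩
  have hcard : Fintype.card (Fin k × Fin k) = k ^ 2 := by
    rw [Fintype.card_prod, Fintype.card_fin, sq]
  rw [← ENNReal.ofReal_sum_of_nonneg (fun p _ => by positivity),
    ← ENNReal.ofReal_mul (by positivity)]
  apply ENNReal.ofReal_le_ofReal
  unfold GM
  rw [norm_mul, mul_pow]
  have h1 : ‖Pool.Agent.TH612.CF.FH (fun j => (γ (Sum.inl j) : ℂ) - I * (-(1 / 4) + I * v) / 2)
      (fun j => (γ (Sum.inr j) : ℂ) + I * (-(1 / 4) + I * v) / 2)‖ ≤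
      Pool.Agent.TH612.CF.BF k (1 / 8) := by
    refine Pool.Agent.TH612.CF.FH_le (by norm_num) (fun j => ?_)
    constructor
    · have : (((γ (Sum.inl j) : ℝ) : ℂ) - I * (-(1 / 4) + I * v) / 2).im = 1 / 8 := by
        simp
        norm_num
      rw [this]
      norm_num
    · have : (((γ (Sum.inr j) : ℝ) : ℂ) + I * (-(1 / 4) + I * v) / 2).im = -(1 / 8) := by
        simp
        norm_num
      rw [this]
      norm_num
  have h2 : ‖∏ j : Fin k, ∏ l : Fin k, zN M (1 + (-(1 / 4) + I * v) +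
      I * (γ (Sum.inl j) - γ (Sum.inr l)))‖ ^ 2 ≤ ∑ p : Fin k × Fin k,
      ‖zN M (1 + (-(1 / 4) + I * v) + I * (γ (Sum.inl p.1) - γ (Sum.inr p.2))) ^ (k ^ 2)‖ ^ 2 := by
    have h3 := prod_le_sum_pow (fun p : Fin k × Fin k =>
      ‖zN M (1 + (-(1 / 4) + I * v) + I * (γ (Sum.inl p.1) - γ (Sum.inr p.2)))‖ ^ 2)
      (fun p => by positivity)
    rw [hcard] at h3
    have e1 : ‖∏ j : Fin k, ∏ l : Fin k, zN M (1 + (-(1 / 4) + I * v) +
      I * (γ (Sum.inl j) - γ (Sum.inr l)))‖ ^ 2 = ∏ p : Fin k × Fin k,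
      ‖zN M (1 + (-(1 / 4) + I * v) + I * (γ (Sum.inl p.1) - γ (Sum.inr p.2)))‖ ^ 2 := by
      rw [Finset.prod_pow, ← norm_prod, Fintype.prod_prod_type]
    rw [e1]
    refine h3.trans (le_of_eq (Finset.sum_congr rfl fun p _ => ?_))
    rw [norm_pow, ← pow_mul, ← pow_mul, Nat.mul_comm]
  exact mul_le_mul (pow_le_pow_left₀ (norm_nonneg _) h1 2) h2 (by positivity) (by positivity)

theorem t_GL3 (hMV : S_MV) : S_GL3 := by
  intro k α
  rcases Nat.eq_zero_or_pos k with hk | hk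
  · subst hk
    refine ⟨Pool.Agent.TH612.CF.BF 0 (1 / 8) ^ 2 + 1, by positivity, ?_⟩
    intro T M v _ _ hT
    have hT0 : 0 < T := by linarith
    have h1 : ∀ β : Fin 0 → ℝ, ENNReal.ofReal (‖GM M (gab α β) (-(1 / 4) + I * v)‖ ^ 2) ≤
        ENNReal.ofReal (Pool.Agent.TH612.CF.BF 0 (1 / 8) ^ 2 + 1) := by
      intro β
      apply ENNReal.ofReal_le_ofReal
      have h2 : ‖GM M (gab α β) (-(1 / 4) + I * v)‖ ≤ Pool.Agent.TH612.CF.BF 0 (1 / 8) := by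
        unfold GM
        simp only [Finset.univ_eq_empty, Finset.prod_empty, mul_one]
        exact Pool.Agent.TH612.CF.FH_le (by norm_num) (fun j => j.elim0)
      have h3 := pow_le_pow_left₀ (norm_nonneg _) h2 2
      linarith
    refine (lintegral_mono h1).trans ?_
    rw [lintegral_const]
    have h4 : (mP (Fin 0) T) univ = 1 := by
      unfold mP
      rw [Measure.pi_univ]
      simp
    rw [h4]
    simp
  obtain ⟨C, hC, hmv⟩ := hMV
  obtain ⟨m, hm⟩ : ∃ m : ℕ, m = k ^ 2 := ⟨_, rfl⟩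
  have hm1 : 1 ≤ m := by rw [hm]; exact Nat.one_le_pow _ _ hk
  have hcard : Fintype.card (Fin k × Fin k) = m := by
    rw [Fintype.card_prod, Fintype.card_fin, hm, sq]
  obtain ⟨C0, hC0, hcc⟩ := cc_sq hm1
  refine ⟨Pool.Agent.TH612.CF.BF k (1 / 8) ^ 2 * (m * (2 * C * C0)) + 1, by positivity, ?_⟩
  intro T M v hM hMT hT
  have hT0 : 0 < T := by linarith
  have hM1 : (1 : ℝ) ≤ M := by exact_mod_cast hM
  have hMm : (M : ℝ) ^ m ≤ T := by
    have h1 : (M : ℝ) ^ m ≤ (M : ℝ) ^ (3 * k ^ 2) :=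
      pow_le_pow_right₀ hM1 (by rw [hm]; omega)
    have h2 : (0 : ℝ) ≤ (M : ℝ) ^ (3 * k ^ 2) := by positivity
    linarith
  have hpt : ∀ β : Fin k → ℝ, ENNReal.ofReal (‖GM M (gab α β) (-(1 / 4) + I * v)‖ ^ 2) ≤
      ENNReal.ofReal (Pool.Agent.TH612.CF.BF k (1 / 8) ^ 2) * ∑ p : Fin k × Fin k,
        ENNReal.ofReal (‖zN M (1 + (-(1 / 4) + I * v) +
        I * ((α p.1 : ℂ) - (β p.2 : ℂ))) ^ m‖ ^ 2) := by
    intro β
    rw [hm]
    exact gm_le hk M v (gab α β)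
  have hmeas : ∀ p : Fin k × Fin k, Measurable fun β : Fin k → ℝ =>
      ENNReal.ofReal (‖zN M (1 + (-(1 / 4) + I * v) +
        I * ((α p.1 : ℂ) - (β p.2 : ℂ))) ^ m‖ ^ 2) := fun p =>
    ((cont_zN m M v (α p.1)).measurable.comp (measurable_pi_apply p.2)).ennreal_ofReal
  refine (lintegral_mono hpt).trans ?_
  rw [lintegral_const_mul _ (Finset.measurable_sum _ fun p _ => hmeas p),
    lintegral_finsetSum _ fun p _ => hmeas p]
  have hb : ∀ p : Fin k × Fin k, ∫⁻ β : Fin k → ℝ, ENNReal.ofReal (‖zN M (1 + (-(1 / 4) + I * v) +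
        I * ((α p.1 : ℂ) - (β p.2 : ℂ))) ^ m‖ ^ 2) ∂(mP (Fin k) T) ≤
      ENNReal.ofReal (2 * C * C0 * T ^ k) := by
    intro p
    refine (one_lint hT0.le p.2 (one_int hC hmv hcc T M v (α p.1) (by linarith) hMm)).trans ?_
    rw [← ENNReal.ofReal_pow hT0.le, ← ENNReal.ofReal_mul (by positivity)]
    apply ENNReal.ofReal_le_ofReal
    refine le_of_eq ?_
    have h8 : T ^ k = T ^ (k - 1) * T := by
      rw [← pow_succ]
      congr 1
      omega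
    rw [h8]
    ring
  refine (mul_le_mul_right (Finset.sum_le_sum fun p _ => hb p) _).trans ?_
  rw [Finset.sum_const, Finset.card_univ, hcard, nsmul_eq_mul, ← ENNReal.ofReal_natCast,
    ← ENNReal.ofReal_mul (by positivity), ← ENNReal.ofReal_mul (by positivity)]
  apply ENNReal.ofReal_le_ofReal
  have h9 : 0 ≤ T ^ k := by positivity
  nlinarith

end

end Pool.Agent.TH740.GF
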